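import Mathlib

/-!
# Unit regular rings without common inner inverses for all powers

Let `K = F((t))`, let `J` be the set of the `F`-linear maps `K → K` of finite rank which vanish on `t ^ M F[[t]]`
for some `M` (the continuous maps of finite rank), and `S = K + J`, where `K` acts by multiplication. `J` is an
ideal of `S`, `S / J = K`, and `S` is unit regular. Let `R` be the ring of all sequences `(s_n)` in `S` for which
there are `a ∈ K` and `f ∈ J` with `s_n = a + f (1 + t ^ n)` for all large `n`. As `f t ^ n g = 0` for `f, g ∈ J` and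
large `n`, this is a ring, the map `(s_n) ↦ a + f` is a homomorphism to `S`, and `R` is unit regular.

Let `x_n v = t (v - λ_n(v))`, where `λ_n(v) = v_0 + v_(-n)` is the sum of two coefficients of `v`. Then
`x = (x_n)` is an element of `R`. Its `n`-th component kills `1, t ^ (-1), …, t ^ (-(n - 1))` successively, but
`x_n ^ n t ^ (-n) = 1 - t ^ n`. Let `w = (w_n)`, `w_n = b + h (1 + t ^ n)` for large `n`, be such that
`x ^ k w ^ k x ^ k = x ^ k` for all `k ≥ 1`. Then `b = t ^ (-1)`, and for large `n`, with `u = t ^ n - 1` in the range of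
`x_n ^ n`, `x_n u = t ^ (n + 1)` and `w_n t ^ (n + 1) = t ^ n = u + 1`; comparing the relations for `k = n` and
`k = n + 1` one gets `x_n ^ (n + 1) w_n ^ n 1 = 0`. The relation for `k = 1` gives
`w_n ^ n 1 ∈ w_n t ^ (1 - n) + span (1, …, t ^ (1 - n))`, hence `x_n ^ (n + 1) (t ^ (-n) + ζ) = 0` with
`ζ` in the range of `h`, and so the coefficient of `t ^ (-n)` in `ζ` is `-1`. This is impossible for large `n`, because
the range of `h` has finite dimension.
-/

set_option autoImplicit false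

namespace Pool.Agent.Results.MP_a7dadb_al.NoCommonInverse

open LaurentSeries

variable (F : Type) [Field F]

/-- the Laurent series of order at least `M` -/
def L (M : ℤ) : Submodule F F⸨X⸩ where
  carrier := {v | ∀ i : ℤ, i < M → v.coeff i = 0}
  zero_mem' := fun i _ => rfl
  add_mem' := by
    intro a b ha hb i hi
    rw [HahnSeries.coeff_add, ha i hi, hb i hi, add_zero]
  smul_mem' := by
    intro c a ha i hi
    rw [HahnSeries.coeff_smul, ha i hi, smul_zero]

variable {F}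

lemma mem_L (M : ℤ) (v : F⸨X⸩) : v ∈ L F M ↔ ∀ i : ℤ, i < M → v.coeff i = 0 := Iff.rfl

lemma L_anti {M M' : ℤ} (h : M ≤ M') : L F M' ≤ L F M := fun _ hv i hi => hv i (hi.trans_le h)

lemma mem_L_iff (M : ℤ) (v : F⸨X⸩) : v ∈ L F M ↔ v = 0 ∨ M ≤ v.order := by
  constructor
  · intro h
    by_cases hv : v = 0
    · exact Or.inl hv
    · refine Or.inr ?_
      by_contra hlt
      exact (HahnSeries.coeff_order_eq_zero.not.2 hv) (h _ (not_le.1 hlt))
  · rintro (rfl | h)
    · exact (L F M).zero_mem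
    · intro i hi
      exact HahnSeries.coeff_eq_zero_of_lt_order (hi.trans_le h)

lemma exists_L (v : F⸨X⸩) : ∃ M, v ∈ L F M := ⟨v.order, (mem_L_iff _ _).2 (Or.inr le_rfl)⟩

lemma mul_mem_L {M M' : ℤ} {a v : F⸨X⸩} (ha : a ∈ L F M') (hv : v ∈ L F M) : a * v ∈ L F (M + M') := by
  rw [mem_L_iff] at *
  rcases ha with rfl | ha
  · simp
  rcases hv with rfl | hv
  · simp
  by_cases h1 : a = 0
  · simp [h1]
  by_cases h2 : v = 0
  · simp [h2]
  right
  rw [HahnSeries.order_mul h1 h2]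
  omega

/-- the powers of the variable -/
noncomputable def T (i : ℤ) : F⸨X⸩ := HahnSeries.single i 1

lemma T_mul (i j : ℤ) : (T i : F⸨X⸩) * T j = T (i + j) := by
  unfold T
  rw [HahnSeries.single_mul_single, one_mul]

lemma T_zero : (T 0 : F⸨X⸩) = 1 := rfl

lemma coeff_T (i j : ℤ) : (T i : F⸨X⸩).coeff j = if j = i then 1 else 0 := by
  unfold T
  by_cases h : j = i
  · rw [if_pos h, h, HahnSeries.coeff_single_same]
  · rw [if_neg h, HahnSeries.coeff_single_of_ne h]

lemma coeff_T_mul (i j : ℤ) (v : F⸨X⸩) : (T i * v).coeff j = v.coeff (j - i) := by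
  unfold T
  rw [HahnSeries.coeff_single_mul, one_mul]

lemma T_mem (i : ℤ) : (T i : F⸨X⸩) ∈ L F i := by
  intro j hj
  rw [coeff_T, if_neg (by omega)]

lemma T_ne (i : ℤ) : (T i : F⸨X⸩) ≠ 0 := by
  intro h
  have := congrArg (fun v => HahnSeries.coeff v i) h
  simp [coeff_T] at this

/-- a finite dimensional space lies in some `L M` -/
lemma fd_le (U : Submodule F F⸨X⸩) [FiniteDimensional F U] : ∃ M, U ≤ L F M := by
  obtain ⟨s, hs⟩ := (Submodule.fg_iff_finiteDimensional U).2 inferInstance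
  choose m hm using fun v : F⸨X⸩ => exists_L v
  obtain ⟨M, hM⟩ := (s.image m).bddBelow
  refine ⟨M, ?_⟩
  rw [← hs, Submodule.span_le]
  intro v hv
  exact L_anti (hM (Finset.mem_coe.2 (Finset.mem_image_of_mem m hv))) (hm v)

/-- a finite dimensional space meets some `L M` trivially -/
lemma fd_inf (U : Submodule F F⸨X⸩) [FiniteDimensional F U] : ∃ M : ℕ, ∀ v ∈ U, v ∈ L F M → v = 0 := by
  let f : ℕ →o (Submodule F U)ᵒᵈ :=
    ⟨fun m => OrderDual.toDual ((L F m).comap U.subtype), fun a b hab => by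
      change (L F (b : ℤ)).comap U.subtype ≤ (L F (a : ℤ)).comap U.subtype
      exact Submodule.comap_mono (L_anti (by exact_mod_cast hab))⟩
  obtain ⟨n, hn⟩ := IsArtinian.monotone_stabilizes f
  refine ⟨n, fun v hv hvn => ?_⟩
  have h : ∀ m : ℕ, n ≤ m → v ∈ L F m := by
    intro m hm
    have h1 := hn m hm
    have h2 : (⟨v, hv⟩ : U) ∈ (L F (n : ℤ)).comap U.subtype := hvn
    have h3 : (L F (n : ℤ)).comap U.subtype = (L F (m : ℤ)).comap U.subtype := h1
    rw [h3] at h2
    exact h2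
  ext i
  have h4 := h (max n (i + 1).toNat) (le_max_left _ _) i (by
    have := le_max_right n (i + 1).toNat
    omega)
  exact h4

/-! ### the ring `S` -/

/-- multiplication by `a` -/
noncomputable def ml (a : F⸨X⸩) : Module.End F F⸨X⸩ where
  toFun v := a * v
  map_add' := mul_add a
  map_smul' := by
    intro c v
    rw [← HahnSeries.single_zero_mul_eq_smul, ← HahnSeries.single_zero_mul_eq_smul, RingHom.id_apply]
    ring

@[simp] lemma ml_apply (a v : F⸨X⸩) : ml a v = a * v := rfl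

lemma ml_mul (a b : F⸨X⸩) : (ml (a * b) : Module.End F F⸨X⸩) = ml a * ml b := by
  ext1 v; simp [mul_assoc]

lemma ml_add (a b : F⸨X⸩) : (ml (a + b) : Module.End F F⸨X⸩) = ml a + ml b := by
  ext1 v; simp [add_mul]

lemma ml_one : (ml 1 : Module.End F F⸨X⸩) = 1 := by
  ext1 v; simp

/-- continuous operators of finite rank -/
def IsJ (f : Module.End F F⸨X⸩) : Prop :=
  FiniteDimensional F (LinearMap.range f) ∧ ∃ M, ∀ v ∈ L F M, f v = 0

lemma isJ_zero : IsJ (0 : Module.End F F⸨X⸩) := by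
  refine ⟨?_, 0, fun v _ => rfl⟩
  rw [LinearMap.range_zero]
  infer_instance

lemma IsJ.add {f g : Module.End F F⸨X⸩} (hf : IsJ f) (hg : IsJ g) : IsJ (f + g) := by
  obtain ⟨h1, M, hM⟩ := hf
  obtain ⟨h2, N, hN⟩ := hg
  refine ⟨?_, max M N, fun v hv => ?_⟩
  · exact Submodule.finiteDimensional_of_le (LinearMap.range_add_le f g)
  · rw [LinearMap.add_apply, hM v (L_anti (le_max_left _ _) hv), hN v (L_anti (le_max_right _ _) hv),
      add_zero]

lemma IsJ.left {f : Module.End F F⸨X⸩} (hf : IsJ f) (g : Module.End F F⸨X⸩) : IsJ (g * f) := by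
  obtain ⟨h1, M, hM⟩ := hf
  refine ⟨?_, M, fun v hv => ?_⟩
  · have : LinearMap.range (g * f) = (LinearMap.range f).map g := LinearMap.range_comp f g
    rw [this]
    infer_instance
  · rw [Module.End.mul_apply, hM v hv, map_zero]

lemma IsJ.right {f : Module.End F F⸨X⸩} (hf : IsJ f) (a : F⸨X⸩) : IsJ (f * ml a) := by
  obtain ⟨h1, M, hM⟩ := hf
  obtain ⟨A, hA⟩ := exists_L a
  refine ⟨?_, M - A, fun v hv => ?_⟩
  · exact Submodule.finiteDimensional_of_le (LinearMap.range_comp_le_range (ml a) f)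
  · rw [Module.End.mul_apply, ml_apply]
    apply hM
    have := mul_mem_L hA hv
    rwa [sub_add_cancel] at this

lemma isJ_unique {a b : F⸨X⸩} {f g : Module.End F F⸨X⸩} (hf : IsJ f) (hg : IsJ g)
    (h : ml a + f = ml b + g) : a = b ∧ f = g := by
  obtain ⟨h1, M, hM⟩ := hf
  obtain ⟨h2, N, hN⟩ := hg
  have h3 := LinearMap.congr_fun h (T (max M N))
  simp only [LinearMap.add_apply, ml_apply, hM _ (L_anti (le_max_left _ _) (T_mem _)),
    hN _ (L_anti (le_max_right _ _) (T_mem _)), add_zero] at h3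
  have h4 : a = b := mul_right_cancel₀ (T_ne _) h3
  subst h4
  exact ⟨rfl, add_left_cancel h⟩

/-- a continuous projection onto a finite dimensional space -/
lemma exists_proj (U : Submodule F F⸨X⸩) [FiniteDimensional F U] :
    ∃ p : Module.End F F⸨X⸩, IsJ p ∧ (∀ v, p v ∈ U) ∧ ∀ v ∈ U, p v = v := by
  obtain ⟨M, hM⟩ := fd_inf U
  let q : U →ₗ[F] (F⸨X⸩ ⧸ L F M) := (L F (M : ℤ)).mkQ ∘ₗ U.subtype
  have hq : LinearMap.ker q = ⊥ := by
    rw [LinearMap.ker_eq_bot']
    rintro ⟨v, hv⟩ h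
    have h1 : v ∈ L F (M : ℤ) := (Submodule.Quotient.mk_eq_zero _).1 h
    exact Subtype.ext (hM v hv h1)
  obtain ⟨g, hg⟩ := LinearMap.exists_leftInverse_of_injective q hq
  refine ⟨U.subtype ∘ₗ g ∘ₗ (L F (M : ℤ)).mkQ, ⟨?_, M, fun v hv => ?_⟩, fun v => ?_, fun v hv => ?_⟩
  · exact Submodule.finiteDimensional_of_le
      ((LinearMap.range_comp_le_range _ _).trans (le_of_eq (Submodule.range_subtype U)))
  · have h1 : (L F (M : ℤ)).mkQ v = 0 := (Submodule.Quotient.mk_eq_zero _).2 hv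
    simp [h1]
  · exact (g _).2
  · have h1 := LinearMap.congr_fun hg ⟨v, hv⟩
    have h2 := congrArg Subtype.val h1
    exact h2

/-- finite dimensional unit regularity -/
lemma fd_unitRegular {U : Type*} [AddCommGroup U] [Module F U] [FiniteDimensional F U]
    (t : Module.End F U) : ∃ e : U ≃ₗ[F] U, ∀ v, t (e (t v)) = t v := by
  obtain ⟨C, hC⟩ := Submodule.exists_isCompl (LinearMap.ker t)
  obtain ⟨D, hD⟩ := Submodule.exists_isCompl (LinearMap.range t)
  have hdim : Module.finrank F (LinearMap.ker t) = Module.finrank F D := by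
    have h1 := LinearMap.finrank_range_add_finrank_ker t
    have h2 := Submodule.finrank_add_eq_of_isCompl hD
    omega
  let θ : LinearMap.ker t ≃ₗ[F] D := LinearEquiv.ofFinrankEq _ _ hdim
  let π : U →ₗ[F] LinearMap.ker t := Submodule.projectionOnto _ C hC
  let Y : Module.End F U := t + D.subtype ∘ₗ θ.toLinearMap ∘ₗ π
  have hY : Function.Injective Y := by
    rw [← LinearMap.ker_eq_bot, LinearMap.ker_eq_bot']
    intro v hv
    have h1 : t v + (θ (π v) : U) = 0 := hv
    have h2 : t v = -(θ (π v) : U) := eq_neg_of_add_eq_zero_left h1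
    have h3 : t v ∈ D := by rw [h2]; exact D.neg_mem (θ (π v)).2
    have h4 : t v = 0 := by
      have := (Submodule.disjoint_def.1 hD.disjoint) (t v) (LinearMap.mem_range_self t v) h3
      exact this
    have h5 : (θ (π v) : U) = 0 := by rw [h4, zero_add] at h1; exact h1
    have h6 : π v = 0 := by
      have : θ (π v) = 0 := Subtype.ext h5
      exact (LinearEquiv.map_eq_zero_iff θ).1 this
    have h7 : π v = ⟨v, h4⟩ := Submodule.projectionOnto_apply_left hC ⟨v, h4⟩
    rw [h7] at h6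
    exact congrArg Subtype.val h6
  let E : U ≃ₗ[F] U := LinearEquiv.ofInjectiveEndo Y hY
  refine ⟨E.symm, fun v => ?_⟩
  -- write `v = k + c`
  have h8 : ∀ c ∈ C, E.symm (t c) = c := by
    intro c hc
    rw [LinearEquiv.symm_apply_eq]
    have : π c = 0 := Submodule.projectionOnto_apply_right hC ⟨c, hc⟩
    change t c = t c + (θ (π c) : U)
    rw [this]; simp
  obtain ⟨k, hk, c, hc, rfl⟩ := Submodule.mem_sup.1 (by rw [hC.sup_eq_top]; trivial : v ∈ LinearMap.ker t ⊔ C)
  rw [map_add, LinearMap.mem_ker.1 hk, zero_add, h8 c hc]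

/-- the elements of the ring `S` -/
def MemS (s : Module.End F F⸨X⸩) : Prop := ∃ (a : F⸨X⸩) (f : Module.End F F⸨X⸩), IsJ f ∧ s = ml a + f

lemma MemS.mul {s t : Module.End F F⸨X⸩} (hs : MemS s) (ht : MemS t) : MemS (s * t) := by
  obtain ⟨a, f, hf, rfl⟩ := hs
  obtain ⟨b, g, hg, rfl⟩ := ht
  refine ⟨a * b, ml a * g + f * ml b + f * g, ((hg.left _).add (hf.right _)).add (hg.left _), ?_⟩
  rw [ml_mul]; noncomm_ring

lemma memS_ml (a : F⸨X⸩) : MemS (ml a : Module.End F F⸨X⸩) := ⟨a, 0, isJ_zero, (add_zero _).symm⟩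

/-- unit regularity of `ε + f`, `ε ^ 2 = ε` -/
lemma core (ε : F) (hε : ε * ε = ε) {f : Module.End F F⸨X⸩} (hf : IsJ f) :
    ∃ g g' : Module.End F F⸨X⸩, MemS g ∧ MemS g' ∧ g * g' = 1 ∧ g' * g = 1 ∧
      ∀ v, ε • (g (ε • v + f v)) + f (g (ε • v + f v)) = ε • v + f v := by
  obtain ⟨hfd, M, hM⟩ := hf
  obtain ⟨C, hC⟩ := Submodule.exists_isCompl (LinearMap.ker f)
  have hCfd : FiniteDimensional F C :=
    ((Submodule.quotientEquivOfIsCompl _ _ hC).symm.trans
      (LinearMap.quotKerEquivRange f)).symm.finiteDimensional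
  let U : Submodule F F⸨X⸩ := LinearMap.range f ⊔ C
  have hUfd : FiniteDimensional F U := Submodule.finiteDimensional_sup _ _
  have hYfd : FiniteDimensional F (U ⊓ LinearMap.ker f : Submodule F F⸨X⸩) :=
    Submodule.finiteDimensional_of_le inf_le_left
  obtain ⟨π, ⟨-, N, hN⟩, hπ1, hπ2⟩ := exists_proj (U ⊓ LinearMap.ker f)
  let W : Submodule F F⸨X⸩ := LinearMap.ker π ⊓ LinearMap.ker f
  have hUW : IsCompl U W := by
    refine IsCompl.of_eq ?_ ?_
    · rw [eq_bot_iff]
      rintro v ⟨hv1, hv2, hv3⟩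
      have h1 := hπ2 v ⟨hv1, hv3⟩
      rw [LinearMap.mem_ker.1 hv2] at h1
      exact h1.symm
    · rw [eq_top_iff]
      rintro v -
      obtain ⟨z, hz, c, hc, rfl⟩ :=
        Submodule.mem_sup.1 (by rw [hC.sup_eq_top]; trivial : v ∈ LinearMap.ker f ⊔ C)
      refine (U ⊔ W).add_mem ?_ (Submodule.mem_sup_left (Submodule.mem_sup_right hc))
      have h1 := hπ1 z
      rw [show z = π z + (z - π z) by abel]
      refine (U ⊔ W).add_mem (Submodule.mem_sup_left h1.1) (Submodule.mem_sup_right ⟨?_, ?_⟩)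
      · rw [SetLike.mem_coe, LinearMap.mem_ker, map_sub, hπ2 _ h1, sub_self]
      · rw [SetLike.mem_coe, LinearMap.mem_ker, map_sub, LinearMap.mem_ker.1 hz,
          LinearMap.mem_ker.1 h1.2, sub_self]
  let P : F⸨X⸩ →ₗ[F] U := Submodule.projectionOnto U W hUW
  have hPU : ∀ u : U, P u = u := fun u => Submodule.projectionOnto_apply_left hUW u
  have hPW : ∀ w ∈ W, P w = 0 := fun w hw => Submodule.projectionOnto_apply_right hUW ⟨w, hw⟩
  have hPL : ∀ v ∈ L F (max M N), P v = 0 := fun v hv =>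
    hPW v ⟨hN v (L_anti (le_max_right _ _) hv), hM v (L_anti (le_max_left _ _) hv)⟩
  have hsU : ∀ u : U, ε • (u : F⸨X⸩) + f u ∈ U := fun u =>
    U.add_mem (U.smul_mem _ u.2) (Submodule.mem_sup_left (LinearMap.mem_range_self f _))
  let t : Module.End F U := LinearMap.codRestrict U ((ε • LinearMap.id + f) ∘ₗ U.subtype) hsU
  obtain ⟨X, hX⟩ := fd_unitRegular t
  let G : (U ≃ₗ[F] U) → Module.End F F⸨X⸩ := fun Y => 1 + U.subtype ∘ₗ (Y.toLinearMap - 1) ∘ₗ P
  have hG : ∀ Y v, G Y v = v + ((Y (P v) : F⸨X⸩) - (P v : F⸨X⸩)) := fun Y v => rfl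
  have hGS : ∀ Y, MemS (G Y) := fun Y => by
    refine ⟨1, U.subtype ∘ₗ (Y.toLinearMap - 1) ∘ₗ P, ⟨?_, max M N, fun v hv => ?_⟩, ?_⟩
    · exact Submodule.finiteDimensional_of_le
        ((LinearMap.range_comp_le_range _ _).trans (le_of_eq (Submodule.range_subtype U)))
    · simp [hPL v hv]
    · rw [ml_one]
  have hPG : ∀ Y v, P (G Y v) = Y (P v) := fun Y v => by
    rw [hG, map_add, map_sub, hPU, hPU]; abel
  have hGG : ∀ Y Y' : U ≃ₗ[F] U, (∀ u, Y (Y' u) = u) → G Y * G Y' = 1 := fun Y Y' h => by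
    ext1 v
    rw [Module.End.mul_apply, hG, hPG, h, hG, Module.End.one_apply]
    abel
  refine ⟨G X, G X.symm, hGS _, hGS _, hGG _ _ (fun u => by simp), hGG _ _ (fun u => by simp), fun v => ?_⟩
  obtain ⟨p, hp, q, hq, rfl⟩ :=
    Submodule.mem_sup.1 (by rw [hUW.sup_eq_top]; trivial : v ∈ U ⊔ W)
  have hfq : f q = 0 := hq.2
  have e1 : ε • (p + q) + f (p + q) = (t ⟨p, hp⟩ : F⸨X⸩) + ε • q := by
    rw [map_add, hfq, smul_add, add_zero]
    change _ = (ε • p + f p) + ε • q
    abel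
  have e2 : P ((t ⟨p, hp⟩ : F⸨X⸩) + ε • q) = t ⟨p, hp⟩ := by
    rw [map_add, hPU, map_smul, hPW q hq, smul_zero, add_zero]
  have e3 : G X ((t ⟨p, hp⟩ : F⸨X⸩) + ε • q) = (X (t ⟨p, hp⟩) : F⸨X⸩) + ε • q := by
    rw [hG, e2]; abel
  rw [e1, e3]
  have e4 := congrArg Subtype.val (hX ⟨p, hp⟩)
  have e5 : ((t (X (t ⟨p, hp⟩)) : U) : F⸨X⸩) = ε • (X (t ⟨p, hp⟩) : F⸨X⸩) + f (X (t ⟨p, hp⟩)) := rfl
  rw [e5] at e4
  rw [smul_add, map_add, map_smul, hfq, smul_zero, add_zero, smul_smul, hε]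
  rw [← e4]
  abel

/-- the ring `S` is unit regular -/
lemma regS {s : Module.End F F⸨X⸩} (hs : MemS s) :
    ∃ g g' : Module.End F F⸨X⸩, MemS g ∧ MemS g' ∧ g * g' = 1 ∧ g' * g = 1 ∧ s * g * s = s := by
  obtain ⟨a, f, hf, rfl⟩ := hs
  by_cases ha : a = 0
  · subst ha
    obtain ⟨g, g', h1, h2, h3, h4, h5⟩ := core (0 : F) (by ring) hf
    refine ⟨g, g', h1, h2, h3, h4, ?_⟩
    have h0 : (ml 0 : Module.End F F⸨X⸩) = 0 := by ext1 v; simp
    rw [h0, zero_add]
    ext1 v
    have := h5 v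
    simp only [zero_smul, zero_add] at this
    exact this
  · obtain ⟨g, g', h1, h2, h3, h4, h5⟩ := core (1 : F) (by ring) (hf.left (ml a⁻¹))
    have e1 : (ml a * ml a⁻¹ : Module.End F F⸨X⸩) = 1 := by
      rw [← ml_mul, mul_inv_cancel₀ ha, ml_one]
    have e2 : (ml a⁻¹ * ml a : Module.End F F⸨X⸩) = 1 := by
      rw [← ml_mul, inv_mul_cancel₀ ha, ml_one]
    have e3 : ml a + f = ml a * (1 + ml a⁻¹ * f) := by
      rw [mul_add, mul_one, ← mul_assoc, e1, one_mul]
    have e4 : (1 + ml a⁻¹ * f) * g * (1 + ml a⁻¹ * f) = 1 + ml a⁻¹ * f := by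
      ext1 v
      have := h5 v
      simp only [one_smul] at this
      exact this
    refine ⟨g * ml a⁻¹, ml a * g', h1.mul (memS_ml _), (memS_ml _).mul h2, ?_, ?_, ?_⟩
    · rw [mul_assoc, ← mul_assoc (ml a⁻¹), e2, one_mul, h3]
    · rw [mul_assoc, ← mul_assoc g', h4, one_mul, e1]
    · rw [e3]
      calc ml a * (1 + ml a⁻¹ * f) * (g * ml a⁻¹) * (ml a * (1 + ml a⁻¹ * f))
          = ml a * ((1 + ml a⁻¹ * f) * g * (ml a⁻¹ * ml a) * (1 + ml a⁻¹ * f)) := by noncomm_ring
        _ = ml a * (1 + ml a⁻¹ * f) := by rw [e2, mul_one, e4]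

/-! ### the ring `R` -/

/-- the sequence `x` converges to `s` in the twisted sense -/
def Lim (x : ℕ → Module.End F F⸨X⸩) (s : Module.End F F⸨X⸩) : Prop :=
  ∃ (a : F⸨X⸩) (f : Module.End F F⸨X⸩), IsJ f ∧ s = ml a + f ∧
    ∃ N : ℕ, ∀ n : ℕ, N ≤ n → x n = ml a + f * ml (1 + T n)

lemma Lim.memS {x : ℕ → Module.End F F⸨X⸩} {s : Module.End F F⸨X⸩} (h : Lim x s) : MemS s := by
  obtain ⟨a, f, h1, h2, -⟩ := h
  exact ⟨a, f, h1, h2⟩

lemma lim_exists {s : Module.End F F⸨X⸩} (h : MemS s) : ∃ x : ℕ → Module.End F F⸨X⸩, Lim x s ∧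
    ∀ n, MemS (x n) := by
  obtain ⟨a, f, h1, h2⟩ := h
  exact ⟨fun n => ml a + f * ml (1 + T n), ⟨a, f, h1, h2, 0, fun _ _ => rfl⟩,
    fun _ => ⟨a, _, h1.right _, rfl⟩⟩

lemma lim_one : Lim (1 : ℕ → Module.End F F⸨X⸩) 1 :=
  ⟨1, 0, isJ_zero, by rw [ml_one, add_zero], 0, fun n _ => by
    rw [ml_one, zero_mul, add_zero]; rfl⟩

lemma Lim.add {x y : ℕ → Module.End F F⸨X⸩} {s t : Module.End F F⸨X⸩} (hx : Lim x s)
    (hy : Lim y t) : Lim (x + y) (s + t) := by
  obtain ⟨a, f, hf, rfl, N, hN⟩ := hx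
  obtain ⟨b, g, hg, rfl, M, hM⟩ := hy
  refine ⟨a + b, f + g, hf.add hg, by rw [ml_add]; abel, max N M, fun n hn => ?_⟩
  rw [Pi.add_apply, hN n ((le_max_left _ _).trans hn), hM n ((le_max_right _ _).trans hn),
    ml_add a b, add_mul]
  abel

lemma ml_neg (a : F⸨X⸩) : (ml (-a) : Module.End F F⸨X⸩) = -ml a := by
  ext1 v; simp

lemma IsJ.neg {f : Module.End F F⸨X⸩} (hf : IsJ f) : IsJ (-f) := by
  have : -f = (-1) * f := by ext1 v; simp
  rw [this]
  exact hf.left _

lemma Lim.neg {x : ℕ → Module.End F F⸨X⸩} {s : Module.End F F⸨X⸩} (hx : Lim x s) :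
    Lim (-x) (-s) := by
  obtain ⟨a, f, hf, rfl, N, hN⟩ := hx
  refine ⟨-a, -f, hf.neg, by rw [ml_neg]; abel, N, fun n hn => ?_⟩
  rw [Pi.neg_apply, hN n hn, ml_neg]
  ext1 v
  simp only [LinearMap.neg_apply, LinearMap.add_apply, Module.End.mul_apply]
  abel

lemma Lim.mul {x y : ℕ → Module.End F F⸨X⸩} {s t : Module.End F F⸨X⸩} (hx : Lim x s)
    (hy : Lim y t) : Lim (x * y) (s * t) := by
  obtain ⟨a, f, hf, rfl, N, hN⟩ := hx
  obtain ⟨b, g, hg, rfl, M, hM⟩ := hy
  obtain ⟨hf1, A, hA⟩ := hf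
  obtain ⟨hg1, B, hB⟩ := hg
  have hf : IsJ f := ⟨hf1, A, hA⟩
  have hg : IsJ g := ⟨hg1, B, hB⟩
  obtain ⟨D, hD⟩ := fd_le (LinearMap.range g)
  -- `f t ^ n g = 0` for large `n`
  have key : ∀ n : ℕ, (A - D).toNat ≤ n → f * ml (T n) * g = 0 := by
    intro n hn
    ext1 v
    rw [Module.End.mul_apply, Module.End.mul_apply, ml_apply, LinearMap.zero_apply]
    apply hA
    have := mul_mem_L (T_mem (F := F) n) (hD (LinearMap.mem_range_self g v))
    exact L_anti (by omega) this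
  refine ⟨a * b, ml a * g + f * ml b + f * g, ((hg.left _).add (hf.right _)).add (hg.left _),
    by rw [ml_mul]; noncomm_ring, max (max N M) (A - D).toNat, fun n hn => ?_⟩
  have h1 : N ≤ n := ((le_max_left _ _).trans (le_max_left _ _)).trans hn
  have h2 : M ≤ n := ((le_max_right _ _).trans (le_max_left _ _)).trans hn
  have h3 := key n ((le_max_right _ _).trans hn)
  rw [Pi.mul_apply, hN n h1, hM n h2, ml_mul]
  have h4 : (ml (1 + T n) * ml b : Module.End F F⸨X⸩) = ml b * ml (1 + T n) := by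
    rw [← ml_mul, ← ml_mul, mul_comm]
  have h5 : f * ml (1 + T n) * g = f * g := by
    rw [ml_add, ml_one, mul_add, add_mul, mul_one, h3, add_zero]
  calc (ml a + f * ml (1 + T n)) * (ml b + g * ml (1 + T n))
      = ml a * ml b + ml a * g * ml (1 + T n) + f * (ml (1 + T n) * ml b) +
        (f * ml (1 + T n) * g) * ml (1 + T n) := by noncomm_ring
    _ = ml a * ml b + (ml a * g + f * ml b + f * g) * ml (1 + T n) := by
        rw [h4, h5]; noncomm_ring

lemma Lim.unique {x y : ℕ → Module.End F F⸨X⸩} {s : Module.End F F⸨X⸩} (hx : Lim x s)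
    (hy : Lim y s) : ∃ N : ℕ, ∀ n, N ≤ n → x n = y n := by
  obtain ⟨a, f, hf, h1, N, hN⟩ := hx
  obtain ⟨b, g, hg, h2, M, hM⟩ := hy
  obtain ⟨rfl, rfl⟩ := isJ_unique hf hg (h1.symm.trans h2)
  exact ⟨max N M, fun n hn => by
    rw [hN n ((le_max_left _ _).trans hn), hM n ((le_max_right _ _).trans hn)]⟩

lemma MemS.add {s t : Module.End F F⸨X⸩} (hs : MemS s) (ht : MemS t) : MemS (s + t) := by
  obtain ⟨a, f, hf, rfl⟩ := hs
  obtain ⟨b, g, hg, rfl⟩ := ht
  exact ⟨a + b, f + g, hf.add hg, by rw [ml_add]; abel⟩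

lemma MemS.neg {s : Module.End F F⸨X⸩} (hs : MemS s) : MemS (-s) := by
  obtain ⟨a, f, hf, rfl⟩ := hs
  exact ⟨-a, -f, hf.neg, by rw [ml_neg]; abel⟩

variable (F) in
/-- the ring `R` -/
noncomputable def R : Subring (ℕ → Module.End F F⸨X⸩) where
  carrier := {x | (∀ n, MemS (x n)) ∧ ∃ s, Lim x s}
  one_mem' := ⟨fun _ => ⟨1, 0, isJ_zero, by rw [ml_one, add_zero]; rfl⟩, 1, lim_one⟩
  zero_mem' := ⟨fun _ => ⟨0, 0, isJ_zero, by ext1 v; simp⟩, 0, 0, 0, isJ_zero, by ext1 v; simp, 0,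
    fun n _ => by ext1 v; simp⟩
  add_mem' := fun ⟨h1, s, h2⟩ ⟨h3, t, h4⟩ => ⟨fun n => (h1 n).add (h3 n), _, h2.add h4⟩
  mul_mem' := fun ⟨h1, s, h2⟩ ⟨h3, t, h4⟩ => ⟨fun n => (h1 n).mul (h3 n), _, h2.mul h4⟩
  neg_mem' := fun ⟨h1, s, h2⟩ => ⟨fun n => (h1 n).neg, _, h2.neg⟩

lemma mem_R (x : ℕ → Module.End F F⸨X⸩) : x ∈ R F ↔ (∀ n, MemS (x n)) ∧ ∃ s, Lim x s := Iff.rfl

/-- The ring is unit regular: every element has an inner inverse which is a unit. -/
def UnitRegular (R : Type) [Ring R] : Prop := ∀ a : R, ∃ u : Rˣ, a * u * a = a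

lemma R_unitRegular : UnitRegular (R F) := by
  rintro ⟨x, hx1, s, hx2⟩
  choose g g' h1 h2 h3 h4 h5 using fun n => regS (hx1 n)
  obtain ⟨k, k', k1, k2, k3, k4, k5⟩ := regS hx2.memS
  obtain ⟨y, hy, hyS⟩ := lim_exists k1
  obtain ⟨y', hy', hyS'⟩ := lim_exists k2
  have l1 : Lim (y * y') 1 := by rw [← k3]; exact hy.mul hy'
  have l2 : Lim (y' * y) 1 := by rw [← k4]; exact hy'.mul hy
  have l3 : Lim (x * y * x) s := by
    have := (hx2.mul hy).mul hx2
    rwa [k5] at this
  obtain ⟨N1, hN1⟩ := l1.unique lim_one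
  obtain ⟨N2, hN2⟩ := l2.unique lim_one
  obtain ⟨N3, hN3⟩ := l3.unique hx2
  set N := max N1 (max N2 N3) with hN
  let u : ℕ → Module.End F F⸨X⸩ := fun n => if N ≤ n then y n else g n
  let u' : ℕ → Module.End F F⸨X⸩ := fun n => if N ≤ n then y' n else g' n
  have hu : Lim u k := by
    obtain ⟨a, f, h1, h2, M, hM⟩ := hy
    exact ⟨a, f, h1, h2, max M N, fun n hn => by
      rw [← hM n ((le_max_left _ _).trans hn)]
      exact if_pos ((le_max_right _ _).trans hn)⟩
  have hu' : Lim u' k' := by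
    obtain ⟨a, f, h1, h2, M, hM⟩ := hy'
    exact ⟨a, f, h1, h2, max M N, fun n hn => by
      rw [← hM n ((le_max_left _ _).trans hn)]
      exact if_pos ((le_max_right _ _).trans hn)⟩
  have huS : ∀ n, MemS (u n) := fun n => by
    by_cases hn : N ≤ n
    · simp only [u, if_pos hn]; exact hyS n
    · simp only [u, if_neg hn]; exact h1 n
  have huS' : ∀ n, MemS (u' n) := fun n => by
    by_cases hn : N ≤ n
    · simp only [u', if_pos hn]; exact hyS' n
    · simp only [u', if_neg hn]; exact h2 n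
  refine ⟨⟨⟨u, huS, _, hu⟩, ⟨u', huS', _, hu'⟩, Subtype.ext ?_, Subtype.ext ?_⟩, Subtype.ext ?_⟩
  · funext n
    change u n * u' n = 1
    by_cases hn : N ≤ n
    · simp only [u, u', if_pos hn]
      exact hN1 n ((le_max_left _ _).trans hn)
    · simp only [u, u', if_neg hn]; exact h3 n
  · funext n
    change u' n * u n = 1
    by_cases hn : N ≤ n
    · simp only [u, u', if_pos hn]
      exact hN2 n (((le_max_left _ _).trans (le_max_right _ _)).trans hn)
    · simp only [u, u', if_neg hn]; exact h4 n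
  · funext n
    change x n * u n * x n = x n
    by_cases hn : N ≤ n
    · simp only [u, if_pos hn]
      exact hN3 n (((le_max_right _ _).trans (le_max_right _ _)).trans hn)
    · simp only [u, if_neg hn]; exact h5 n

/-! ### the element `x` -/

variable (F) in
/-- the operator `v ↦ - v_0 t` -/
noncomputable def fx : Module.End F F⸨X⸩ where
  toFun v := -(v.coeff 0 • T 1)
  map_add' a b := by rw [HahnSeries.coeff_add, add_smul, neg_add]
  map_smul' c a := by
    rw [HahnSeries.coeff_smul, smul_eq_mul, mul_smul, RingHom.id_apply, smul_neg]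

lemma isJ_fx : IsJ (fx F) := by
  refine ⟨?_, 1, fun v hv => ?_⟩
  · have : LinearMap.range (fx F) ≤ Submodule.span F {T 1} := by
      rintro _ ⟨v, rfl⟩
      exact Submodule.neg_mem _ (Submodule.smul_mem _ _ (Submodule.mem_span_singleton_self _))
    exact Submodule.finiteDimensional_of_le this
  · change -(v.coeff 0 • (T 1 : F⸨X⸩)) = 0
    rw [hv 0 (by norm_num), zero_smul, neg_zero]

variable (F) in
/-- the element `x` -/
noncomputable def xs (n : ℕ) : Module.End F F⸨X⸩ := ml (T 1) + fx F * ml (1 + T n)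

/-- the functional `λ_n` -/
noncomputable def lam (n : ℕ) (v : F⸨X⸩) : F := v.coeff 0 + v.coeff (-n)

lemma xs_apply (n : ℕ) (v : F⸨X⸩) : xs F n v = T 1 * v - lam n v • T 1 := by
  change T 1 * v + -(((1 + T n) * v).coeff 0 • T 1) = _
  have : ((1 + T (n : ℤ)) * v).coeff 0 = lam n v := by
    rw [add_mul, one_mul, HahnSeries.coeff_add, coeff_T_mul, zero_sub]; rfl
  rw [this, sub_eq_add_neg]

lemma xs_mem : xs F ∈ R F :=
  ⟨fun _ => ⟨_, _, isJ_fx.right _, rfl⟩, _, T 1, fx F, isJ_fx, rfl, 0, fun _ _ => rfl⟩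

section coord

variable (n : ℕ) (hn : 1 ≤ n)

lemma x_T {i : ℤ} (h0 : i ≠ 0) (h1 : i ≠ -n) : xs F n (T i) = T (i + 1) := by
  rw [xs_apply, T_mul, lam, coeff_T, coeff_T, if_neg (Ne.symm h0), if_neg (Ne.symm h1), add_zero,
    zero_smul, sub_zero, add_comm]

include hn in
lemma x_T0 : xs F n (T 0) = 0 := by
  rw [xs_apply, T_mul, lam, coeff_T, coeff_T, if_pos rfl, if_neg (by omega), add_zero,
    add_zero, one_smul, sub_self]

include hn in
lemma x_Tn : xs F n (T (-n)) = T (-n + 1) - T 1 := by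
  rw [xs_apply, T_mul, lam, coeff_T, coeff_T, if_neg (by omega), if_pos rfl, zero_add,
    one_smul, add_comm]

lemma x_powA (j : ℕ) (hj : j < n) : (xs F n ^ j) (T (-j)) = T 0 := by
  induction j with
  | zero => simp
  | succ j ih =>
    rw [pow_succ, Module.End.mul_apply, x_T n (by omega) (by omega)]
    rw [show (-((j + 1 : ℕ) : ℤ) + 1) = -(j : ℤ) by push_cast; ring]
    exact ih (by omega)

lemma x_powB (j : ℕ) : (xs F n ^ j) (T 1) = T (j + 1) := by
  induction j with
  | zero => simp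
  | succ j ih =>
    rw [pow_succ', Module.End.mul_apply, ih, x_T n (by omega) (by omega)]
    push_cast; rfl

include hn in
lemma x_powC : (xs F n ^ n) (T (-n)) = T 0 - T n := by
  obtain ⟨m, rfl⟩ : ∃ m, n = m + 1 := ⟨n - 1, by omega⟩
  rw [pow_succ, Module.End.mul_apply, x_Tn (m + 1) (by omega), map_sub, x_powB]
  rw [show (-((m + 1 : ℕ) : ℤ) + 1) = -(m : ℤ) by push_cast; ring, x_powA (m + 1) m (by omega)]
  push_cast; rfl

include hn in
lemma x_kill (i : ℕ) (hi : i < n) : (xs F n ^ (n + 1)) (T (-i)) = 0 := by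
  rw [show n + 1 = (n - i) + (1 + i) by omega, pow_add, Module.End.mul_apply, pow_add,
    Module.End.mul_apply, x_powA n i hi, pow_one, x_T0 n hn, map_zero]

lemma x_coeff (k : ℕ) (v : F⸨X⸩) : ((xs F n ^ (k + 1)) v).coeff (k + 1) = -v.coeff (-n) := by
  induction k with
  | zero =>
    rw [zero_add, pow_one, xs_apply, HahnSeries.coeff_sub, coeff_T_mul, HahnSeries.coeff_smul, coeff_T,
      lam]
    simp
  | succ k ih =>
    rw [pow_succ', Module.End.mul_apply, xs_apply, HahnSeries.coeff_sub, coeff_T_mul,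
      HahnSeries.coeff_smul, coeff_T, if_neg (by omega), smul_zero, sub_zero]
    rw [← ih]
    congr 1
    push_cast; ring

variable (F) in
/-- the span of `1, t⁻¹, …, t ^ (-(k - 1))` -/
noncomputable def Q (k : ℕ) : Submodule F F⸨X⸩ :=
  Submodule.span F ((fun i : ℕ => (T (-i) : F⸨X⸩)) '' Set.Iio k)

lemma T_mem_Q {k i : ℕ} (h : i < k) : (T (-i) : F⸨X⸩) ∈ Q F k :=
  Submodule.subset_span ⟨i, h, rfl⟩

include hn in
lemma x_kill_Q (v : F⸨X⸩) (hv : v ∈ Q F n) : (xs F n ^ (n + 1)) v = 0 := by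
  have : Q F n ≤ LinearMap.ker (xs F n ^ (n + 1)) := by
    rw [Q, Submodule.span_le]
    rintro _ ⟨i, hi, rfl⟩
    exact x_kill n hn i hi
  exact this hv

end coord

/-- **Negative answer.** For every field `F` the ring `R F` is unit regular and contains an element `a` such
that no `w` satisfies `a ^ k * w ^ k * a ^ k = a ^ k` for all `k ≥ 1`. -/
theorem no_common (w : R F) (hw : ∀ k : ℕ, 1 ≤ k →
    (⟨xs F, xs_mem⟩ : R F) ^ k * w ^ k * (⟨xs F, xs_mem⟩ : R F) ^ k = (⟨xs F, xs_mem⟩ : R F) ^ k) :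
    False := by
  have rel : ∀ n k : ℕ, 1 ≤ k → ∀ v, (xs F n ^ k) ((w.1 n ^ k) ((xs F n ^ k) v)) =
      (xs F n ^ k) v := by
    intro n k hk v
    have h1 := congrArg (fun z : R F => (z : ℕ → Module.End F F⸨X⸩) n v) (hw k hk)
    simp only [Subring.coe_mul, Subring.coe_pow, Pi.mul_apply, Pi.pow_apply, Module.End.mul_apply] at h1
    exact h1
  obtain ⟨-, s, b, h, ⟨hfd, M, hM⟩, -, N, hN⟩ := (mem_R _).1 w.2
  clear hw
  generalize w.1 = w at rel hN
  obtain ⟨D, hD⟩ := fd_le (LinearMap.range h)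
  obtain ⟨B, hB⟩ := exists_L b
  -- the value of `w n` on high powers
  have hwT : ∀ n : ℕ, N ≤ n → ∀ m : ℤ, M ≤ m → w n (T m) = b * T m := by
    intro n hn m hm
    rw [hN n hn, LinearMap.add_apply, Module.End.mul_apply, ml_apply, ml_apply]
    rw [hM, add_zero]
    rw [add_mul, one_mul, T_mul]
    exact (L F M).add_mem (L_anti hm (T_mem _)) (L_anti (by omega) (T_mem _))
  -- `b = t⁻¹`
  have hb : b = T (-1) := by
    set m : ℤ := max (max 1 M) (1 - B) with hm
    have h1 : (1 : ℤ) ≤ m := (le_max_left _ _).trans (le_max_left _ _)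
    have h2 : M ≤ m := (le_max_right _ _).trans (le_max_left _ _)
    have h3 : 1 - B ≤ m := le_max_right _ _
    have h4 := rel N 1 le_rfl (T m)
    rw [pow_one, pow_one, x_T N (by omega) (by omega), hwT N le_rfl _ (by omega), xs_apply] at h4
    have h5 : lam N (b * T (m + 1)) = 0 := by
      have h6 : b * T (m + 1) ∈ L F 1 := L_anti (by omega) (mul_mem_L hB (T_mem (m + 1)))
      rw [lam, h6 _ (by omega), h6 _ (by omega), add_zero]
    rw [h5, zero_smul, sub_zero] at h4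
    have h7 : T (-1) * (T 1 * (b * T (m + 1))) = b * T (m + 1) := by
      rw [← mul_assoc, T_mul, neg_add_cancel, T_zero, one_mul]
    rw [h4] at h7
    exact (mul_right_cancel₀ (T_ne _) h7).symm
  subst hb
  -- choose `n = m + 1` large
  obtain ⟨m, hmN, hmM, hmD⟩ : ∃ m : ℕ, N ≤ m ∧ M ≤ m ∧ -(m : ℤ) ≤ D :=
    ⟨max N (max M.toNat (-D).toNat), le_max_left _ _,
      by have := (le_max_left M.toNat (-D).toNat).trans (le_max_right N _); omega,
      by have := (le_max_right M.toNat (-D).toNat).trans (le_max_right N _); omega⟩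
  set n := m + 1 with hnm
  have hn : 1 ≤ n := by omega
  have rel := rel n
  set x := xs F n with hx
  set W := w n with hW
  have hWn : W = ml (T (-1)) + h * ml (1 + T n) := hN n (by omega)
  -- (3)
  have e1 : (x ^ n) (-T (-n)) = T n - T 0 := by
    rw [map_neg, hx, x_powC n hn, neg_sub]
  have e2 : x (T n - T 0) = T (n + 1) := by
    rw [map_sub, hx, x_T0 n hn, x_T n (by omega) (by omega), sub_zero]
  have e3 : (x ^ n) ((W ^ n) (T n - T 0)) = T n - T 0 := by
    have := rel n hn (-T (-n))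
    rwa [e1] at this
  have e4 : (x ^ (n + 1)) (-T (-n)) = T (n + 1) := by
    rw [pow_succ', Module.End.mul_apply, e1, e2]
  have e5 : (x ^ (n + 1)) ((W ^ (n + 1)) (T (n + 1))) = T (n + 1) := by
    have := rel (n + 1) (by omega) (-T (-n))
    rwa [e4] at this
  have e6 : W (T (n + 1)) = (T n - T 0) + T 0 := by
    rw [hW, hwT n (by omega) _ (by omega), T_mul, sub_add_cancel]
    congr 1
    ring
  have e7 : (x ^ (n + 1)) ((W ^ n) (T 0)) = 0 := by
    rw [pow_succ W, Module.End.mul_apply, e6, map_add, map_add, pow_succ' x, Module.End.mul_apply, e3,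
      e2] at e5
    rw [pow_succ' x]
    exact add_eq_left.1 e5
  -- (4)
  have e8 : ∀ j : ℕ, j + 1 < n → ∃ c : F, W (T (-j)) = T (-(j + 1 : ℕ)) + c • T 0 := by
    intro j hj
    have h1 := rel 1 le_rfl (T (-(j + 1 : ℕ)))
    rw [pow_one, pow_one, hx, x_T n (by omega) (by omega),
      show (-((j + 1 : ℕ) : ℤ) + 1) = -(j : ℤ) by push_cast; ring, xs_apply] at h1
    refine ⟨lam n (W (T (-j))), ?_⟩
    have h2 : T (-1) * (T 1 * W (T (-j))) = W (T (-j)) := by
      rw [← mul_assoc, T_mul, neg_add_cancel, T_zero, one_mul]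
    rw [sub_eq_iff_eq_add.1 h1, mul_add, T_mul] at h2
    rw [← h2]
    congr 1
    · congr 1; push_cast; ring
    · have : (T (-1) : F⸨X⸩) * (lam n (W (T (-j))) • T 1) = lam n (W (T (-j))) • (T (-1) * T 1) := by
        rw [← HahnSeries.single_zero_mul_eq_smul, ← HahnSeries.single_zero_mul_eq_smul]
        ring
      rw [h2, this, T_mul, neg_add_cancel]
  have e9 : ∀ k : ℕ, k < n → ∀ v ∈ Q F k, W v ∈ Q F (k + 1) := by
    intro k hk v hv
    have : Q F k ≤ (Q F (k + 1)).comap W := by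
      rw [Q, Submodule.span_le]
      rintro _ ⟨i, hi, rfl⟩
      have hi' : i < k := hi
      obtain ⟨c, hc⟩ := e8 i (by omega)
      rw [SetLike.mem_coe, Submodule.mem_comap]
      simp only
      rw [hc]
      refine (Q F (k + 1)).add_mem (T_mem_Q (by omega)) ((Q F (k + 1)).smul_mem _ ?_)
      have := T_mem_Q (F := F) (k := k + 1) (i := 0) (by omega)
      simpa using this
    exact this hv
  have e10 : ∀ j : ℕ, j < n → (W ^ j) (T 0) - T (-j) ∈ Q F j := by
    intro j
    induction j with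
    | zero => intro _; simp
    | succ j ih =>
      intro hj
      have h1 := e9 j (by omega) _ (ih (by omega))
      obtain ⟨c, hc⟩ := e8 j hj
      rw [map_sub, hc] at h1
      rw [pow_succ', Module.End.mul_apply]
      have h2 : (c • T 0 : F⸨X⸩) ∈ Q F (j + 1) := by
        have := T_mem_Q (F := F) (k := j + 1) (i := 0) (by omega)
        exact (Q F (j + 1)).smul_mem _ (by simpa using this)
      have h3 := (Q F (j + 1)).add_mem h1 h2
      have h4 : W ((W ^ j) (T 0)) - (T (-(j + 1 : ℕ)) + c • T 0) + c • T 0 =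
          W ((W ^ j) (T 0)) - T (-(j + 1 : ℕ)) := by abel
      rwa [h4] at h3
  have e11 : (x ^ (n + 1)) (W (T (-m))) = 0 := by
    have h1 := e9 m (by omega) _ (e10 m (by omega))
    have h2 := x_kill_Q n hn _ h1
    have h3 : (W ^ n) (T 0) = W ((W ^ m) (T 0) - T (-m)) + W (T (-m)) := by
      rw [← map_add, sub_add_cancel, hnm, pow_succ', Module.End.mul_apply]
    rw [h3, map_add, h2, zero_add] at e7
    exact e7
  have e12 : W (T (-m)) = T (-n) + h ((1 + T n) * T (-m)) := by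
    rw [hWn, LinearMap.add_apply, Module.End.mul_apply, ml_apply, ml_apply, T_mul]
    congr 2
    rw [hnm]; push_cast; ring
  have e13 : (x ^ (n + 1)) (T (-n)) = -T (n + 1) := by
    rw [← e4, map_neg, neg_neg]
  rw [e12, map_add, e13] at e11
  have e14 : (x ^ (n + 1)) (h ((1 + T n) * T (-m))) = T (n + 1) := by
    rw [← sub_eq_zero, ← e11]; abel
  have e15 := x_coeff (F := F) n n (h ((1 + T n) * T (-m)))
  rw [← hx, e14, coeff_T, if_pos rfl, hD (LinearMap.mem_range_self h _) _ (by omega), neg_zero] at e15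
  exact one_ne_zero e15

lemma scalar_mem (c : F) : algebraMap F (ℕ → Module.End F F⸨X⸩) c ∈ R F := by
  have h : ∀ n : ℕ, algebraMap F (ℕ → Module.End F F⸨X⸩) c n = ml (HahnSeries.single 0 c) + 0 := by
    intro n
    rw [add_zero]
    ext1 v
    rw [ml_apply, HahnSeries.single_zero_mul_eq_smul]
    rfl
  refine ⟨fun n => ⟨_, 0, isJ_zero, h n⟩, _, HahnSeries.single 0 c, 0, isJ_zero, rfl, 0, fun n _ => ?_⟩
  rw [h n, zero_mul]

/-- **Unit regular rings without common inner inverses for all powers.** For every field `F` there are a unit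
regular `F`-algebra `R` and an element `a` of `R` such that for every `w ∈ R` there is `k ≥ 1` with
`a ^ k * w ^ k * a ^ k ≠ a ^ k`. -/
theorem result (F : Type) [Field F] : ∃ (R : Type) (_ : Ring R) (_ : Algebra F R), UnitRegular R ∧
    ∃ a : R, ∀ w : R, ∃ k : ℕ, 1 ≤ k ∧ a ^ k * w ^ k * a ^ k ≠ a ^ k := by
  refine ⟨R F, inferInstance,
    ((algebraMap F (ℕ → Module.End F F⸨X⸩)).codRestrict (R F) scalar_mem).toAlgebra' ?_,
    R_unitRegular, ⟨xs F, xs_mem⟩, fun w => ?_⟩
  · intro c x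
    exact Subtype.ext (Algebra.commutes c (x : ℕ → Module.End F F⸨X⸩))
  · by_contra hcon
    push Not at hcon
    exact no_common w hcon

end Pool.Agent.Results.MP_a7dadb_al.NoCommonInverse
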